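import Pool.Agent.H72.ET.Targets

open Finset Filter

namespace Pool.Agent.H72.ET

/-- the theorem at one height for any number of variables, with the better bound for one variable -/
theorem etf (hQ : T_ETQ) (h1 : T_ET1) : ∀ r d M : ℕ, ∃ s D : ℕ, ∀ μ : Fin M → ℂ,
    LinearIndependent ℚ μ → (∀ j, IsAlgebraic ℚ (Complex.exp (μ j))) → ∀ A : ℝ, ∃ C : ℝ, 0 < C ∧
    ∀ H : ℝ, 2 ≤ H → ∀ ξ : Fin r → ℂ, (∀ i, ‖ξ i‖ ≤ H) → GoodN D (H ^ (D : ℝ)) A ξ →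
    ∃ U : Fin s → Submodule ℚ (Fin M → ℚ),
      (∀ i, Module.finrank ℚ (U i) + 1 ≤ (r + d).choose d ∧
        (r = 1 → Module.finrank ℚ (U i) + 1 ≤ Nat.sqrt (4 * d + 1))) ∧
      ∀ w : Fin M → ℤ, (∀ i, |(w i : ℝ)| ≤ H) → (∀ i, (fun j => (w j : ℚ)) ∉ U i) →
        GoodN d H C (Fin.snoc ξ (∑ j, (w j : ℂ) * μ j) : Fin (r + 1) → ℂ) := by
  intro r d M
  by_cases hr : r = 1
  · subst hr
    obtain ⟨s, hs⟩ := h1 d M
    refine ⟨s, max d 1, fun μ hμ halg A => ?_⟩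
    obtain ⟨C, hC, h⟩ := hs μ hμ halg (((max d 1 : ℕ) : ℝ) * A)
    refine ⟨C, hC, fun H hH ξ hξ hg => ?_⟩
    obtain ⟨U, hU1, hU2⟩ := h H hH ξ hξ (fun P hP hd hc => by
      have h3 := hg P hP (hd.trans (le_max_left _ _)) (fun e => (hc e).trans ?_)
      · rwa [← Real.rpow_mul (by linarith)] at h3
      · calc H = H ^ (1 : ℝ) := (Real.rpow_one H).symm
          _ ≤ H ^ ((max d 1 : ℕ) : ℝ) := Real.rpow_le_rpow_of_exponent_le (by linarith) (by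
            exact_mod_cast le_max_right d 1))
    refine ⟨U, fun i => ⟨?_, fun _ => (hU1 i).2⟩, hU2⟩
    have h4 : (1 + d).choose d = d + 1 := by
      rw [add_comm 1 d, Nat.choose_succ_self_right]
    rw [h4]
    have := (hU1 i).1
    omega
  · obtain ⟨s, D, hs⟩ := hQ r d M
    refine ⟨s, D, fun μ hμ halg A => ?_⟩
    obtain ⟨C, hC, h⟩ := hs μ hμ halg A
    refine ⟨C, hC, fun H hH ξ hξ hg => ?_⟩
    obtain ⟨U, hU1, hU2⟩ := h H hH ξ hξ hg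
    exact ⟨U, fun i => ⟨hU1 i, fun h => absurd h hr⟩, hU2⟩

end Pool.Agent.H72.ET
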