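import Pool.Agent.H72.PER.All3
import Pool.Agent.H72.ET.Fin
import Pool.Agent.H19.ET.RNI
import Pool.Agent.H19.ET.NRN
import Pool.Agent.H19.ET.CVN
import Pool.Agent.H19.ET.UAC
import Pool.Agent.H35.ET.EXN
import Pool.Agent.H54.ET.STN
import Pool.Agent.H54.ET.ETQ
import Pool.Agent.H91.ET.EXU
import Pool.Agent.H33.ET.ET1

/-!
Assembly: the exceptional logarithms relative to a tuple of arbitrary complex numbers.
-/

set_option autoImplicit false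

namespace Pool.Agent.H72.ET

open Pool.Agent
open Pool.Agent.H72.BF

theorem rniAll : T_RNI := H19.ET.pf_RNI

theorem nrnAll : T_NRN := H19.ET.pf_NRN rniAll

theorem stnAll : T_STN := H54.ET.pf_STN nrnAll Pool.Agent.H72.BF.lfs2 rniAll

theorem cvnAll : T_CVN := H19.ET.pf_CVN stnAll

theorem exnAll : T_EXN := H35.ET.pf_EXN cvnAll (H14.BF.gst H78.BF.spc H57.BF.suma)

theorem exuAll : T_EXU := H91.ET.exu exnAll H19.ET.pf_UAC

theorem etqAll : T_ETQ := H54.ET.pf_ETQ bakerFeldman H29.BF.pkg bffAll H84.BF.evp H84.BF.mnr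
  exuAll H79.BF.crt

theorem et1All : T_ET1 :=
  H33.ET.pf_ET1 bakerFeldman H29.BF.pkg bffAll H84.BF.evp H84.BF.mnr
    (H79.BF.cvr (H35.BF.stp H35.BF.nrm Pool.Agent.H72.BF.lfs2)) (H62.BF.spt H78.BF.spc)
    H78.BF.spc H79.BF.crt Pool.Agent.H72.PER.hrlAll

/-- the theorem at one height for any number of variables, with the better bound for the dimension
for one variable -/
theorem etfAll : ∀ r d M : ℕ, ∃ s D : ℕ, ∀ μ : Fin M → ℂ,
    LinearIndependent ℚ μ → (∀ j, IsAlgebraic ℚ (Complex.exp (μ j))) → ∀ A : ℝ, ∃ C : ℝ, 0 < C ∧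
    ∀ H : ℝ, 2 ≤ H → ∀ ξ : Fin r → ℂ, (∀ i, ‖ξ i‖ ≤ H) → GoodN D (H ^ (D : ℝ)) A ξ →
    ∃ U : Fin s → Submodule ℚ (Fin M → ℚ),
      (∀ i, Module.finrank ℚ (U i) + 1 ≤ (r + d).choose d ∧
        (r = 1 → Module.finrank ℚ (U i) + 1 ≤ Nat.sqrt (4 * d + 1))) ∧
      ∀ w : Fin M → ℤ, (∀ i, |(w i : ℝ)| ≤ H) → (∀ i, (fun j => (w j : ℚ)) ∉ U i) →
        GoodN d H C (Fin.snoc ξ (∑ j, (w j : ℂ) * μ j) : Fin (r + 1) → ℂ) :=
  etf etqAll et1All

end Pool.Agent.H72.ET
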