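import Pool.Agent.H34.LG.Cover

/-!
Exchange of subspaces and scales, with initial segments taken from a given sequence.
-/

set_option autoImplicit false

open Filter Finset

namespace Pool.Agent.H72.ET

open Pool.Agent.H34.LG

variable {F V : Type} [Field F] [AddCommGroup V] [Module F V] [FiniteDimensional F V]

open Classical in
omit [FiniteDimensional F V] in
/-- limits along an ultrafilter -/
theorem exists_limU {s : ℕ} (𝒰 : Ultrafilter ℕ) (U : ℕ → Fin s → Submodule F V) :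
    ∃ p : Submodule F V → ℝ, ∀ L,
      Tendsto (fun K : ℕ => cn U L K / K) (𝒰 : Filter ℕ) (nhds (p L)) := by
  have h : ∀ L : Submodule F V, ∃ x : ℝ,
      Tendsto (fun K : ℕ => cn U L K / K) (𝒰 : Filter ℕ) (nhds x) := by
    intro L
    have hc : IsCompact (Set.Icc (0 : ℝ) 1) := isCompact_Icc
    have hm : ∀ K : ℕ, cn U L K / K ∈ Set.Icc (0 : ℝ) 1 := by
      intro K
      have h0 : 0 ≤ cn U L K := cn_nonneg U L K
      have h1 : cn U L K ≤ K := cn_le U L K
      exact ⟨by positivity, div_le_one_of_le₀ h1 (by positivity)⟩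
    have := hc.ultrafilter_le_nhds (𝒰.map (fun K : ℕ => cn U L K / K)) (by
      rw [Ultrafilter.coe_map, le_principal_iff, Filter.mem_map]
      exact Filter.univ_mem' hm)
    obtain ⟨x, _, hx⟩ := this
    exact ⟨x, hx⟩
  choose p hp using h
  exact ⟨p, hp⟩

open Classical in
/-- The exchange of subspaces and scales; the initial segments are taken from a given sequence. -/
theorem cover_exchange_sub (d s : ℕ) (δ : ℝ) (hδ : 0 < δ) : ∃ N : ℕ,
    ∀ (F V : Type) [Field F] [AddCommGroup V] [Module F V] [FiniteDimensional F V]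
      (v : V) (U : ℕ → Fin s → Submodule F V) (κ : ℕ → ℕ), Tendsto κ atTop atTop →
      (∀ k i, Module.finrank F (U k i) ≤ d) →
      ∃ (A : Finset (Submodule F V)), A.card ≤ N ∧
        (∀ W ∈ A, Module.finrank F W ≤ d ∧ v ∈ W) ∧
        ∀ (J : Type) [Countable J] (w : J → V), (∀ x, ∀ W ∈ A, w x ∉ W) →
        ∃ φ : ℕ → ℕ, StrictMono φ ∧ ∀ x, ∀ᶠ t in atTop,
          (((range (κ (φ t))).filter (fun k => ∃ i, v ∈ U k i ∧ w x ∈ U k i)).card : ℝ) ≤
            δ * κ (φ t) := by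
  obtain ⟨N, hN⟩ := cov_all d ((s : ℝ) + 1) (by positivity) (d + 1) le_rfl δ hδ
  refine ⟨N, ?_⟩
  intro F V _ _ _ _ v U κ hκ hU
  set 𝒰 : Ultrafilter ℕ := (hyperfilter ℕ).map κ with h𝒰
  obtain ⟨p, hp⟩ := exists_limU 𝒰 U
  have hle : (𝒰 : Filter ℕ) ≤ atTop := by
    rw [h𝒰, Ultrafilter.coe_map]
    exact (Filter.map_mono Nat.hyperfilter_le_atTop).trans hκ
  have hpair : ∀ S : Finset (Submodule F V),
      (∑ L ∈ S, p L) ^ 2 ≤ ((s : ℝ) + 1) ^ 2 * ∑ L ∈ S, ∑ L' ∈ S, p (L ⊔ L') := by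
    intro S
    have t1 : Tendsto (fun K : ℕ => (∑ L ∈ S, cn U L K / K) ^ 2) (𝒰 : Filter ℕ)
        (nhds ((∑ L ∈ S, p L) ^ 2)) := (tendsto_finsetSum S (fun L _ => hp L)).pow 2
    have t2 : Tendsto (fun K : ℕ => ((s : ℝ) + 1) ^ 2 * ∑ L ∈ S, ∑ L' ∈ S, cn U (L ⊔ L') K / K)
        (𝒰 : Filter ℕ)
        (nhds (((s : ℝ) + 1) ^ 2 * ∑ L ∈ S, ∑ L' ∈ S, p (L ⊔ L'))) :=
      (tendsto_finsetSum S (fun L _ => tendsto_finsetSum S (fun L' _ => hp (L ⊔ L')))).const_mul _
    refine le_of_tendsto_of_tendsto t1 t2 ?_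
    refine hle (eventually_atTop.2 ⟨1, fun K hK => ?_⟩)
    have hK0 : (0 : ℝ) < K := by exact_mod_cast hK
    have e1 := cn_pair U S K
    simp only [← sum_div]
    rw [div_pow, div_le_iff₀ (by positivity)]
    calc (∑ L ∈ S, cn U L K) ^ 2 ≤ (s : ℝ) ^ 2 * K * ∑ L ∈ S, ∑ L' ∈ S, cn U (L ⊔ L') K := e1
      _ ≤ ((s : ℝ) + 1) ^ 2 * K * ∑ L ∈ S, ∑ L' ∈ S, cn U (L ⊔ L') K := by
          refine mul_le_mul_of_nonneg_right ?_
            (sum_nonneg fun L _ => sum_nonneg fun L' _ => cn_nonneg _ _ _)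
          refine mul_le_mul_of_nonneg_right ?_ hK0.le
          gcongr
          linarith
      _ = ((s : ℝ) + 1) ^ 2 * ((∑ L ∈ S, ∑ L' ∈ S, cn U (L ⊔ L') K) / K) * K ^ 2 := by
          field_simp
  have hp01 : ∀ L, 0 ≤ p L ∧ p L ≤ 1 := by
    intro L
    constructor
    · refine ge_of_tendsto (hp L) (Eventually.of_forall fun K => ?_)
      exact div_nonneg (cn_nonneg _ _ _) (by positivity)
    · refine le_of_tendsto (hp L) (Eventually.of_forall fun K => ?_)
      exact div_le_one_of_le₀ (cn_le _ _ _) (by positivity)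
  have hp0 : ∀ L : Submodule F V, d < Module.finrank F L → p L = 0 := by
    intro L hL
    have h0 : ∀ K, cn U L K = 0 := by
      intro K
      unfold cn
      rw [Nat.cast_eq_zero, card_eq_zero, filter_eq_empty_iff]
      intro k _
      rintro ⟨i, hi⟩
      have := Submodule.finrank_mono hi
      have := hU k i
      omega
    have := hp L
    simp only [h0, zero_div] at this
    exact tendsto_nhds_unique this tendsto_const_nhds
  obtain ⟨A, hA1, hA2, hA3⟩ := hN F V v p hpair hp01 hp0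
  refine ⟨A, hA1, hA2, ?_⟩
  intro J _ w hw
  have hlt : ∀ x, p (Submodule.span F {v, w x}) < δ := by
    intro x
    by_contra hcon
    rw [not_lt] at hcon
    obtain ⟨W, hW, hle⟩ := hA3 (Submodule.span F {v, w x})
      (Submodule.subset_span (by simp)) (by simp) hcon
    exact hw x W hW (hle (Submodule.subset_span (by simp)))
  set Q : J → Set ℕ := fun x => {K : ℕ |
    (((range K).filter (fun k => ∃ i, v ∈ U k i ∧ w x ∈ U k i)).card : ℝ) ≤ δ * K} with hQ
  have hQm : ∀ x, Q x ∈ (𝒰 : Filter ℕ) := by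
    intro x
    have h1 := (hp (Submodule.span F {v, w x})).eventually (gt_mem_nhds (hlt x))
    have h2 := h1.and (hle (eventually_gt_atTop 0))
    refine Filter.mem_of_superset h2 ?_
    rintro K ⟨hK, hK0⟩
    have hK0' : (0 : ℝ) < K := by exact_mod_cast hK0
    simp only [hQ, Set.mem_ofPred_eq]
    rw [div_lt_iff₀ hK0'] at hK
    refine le_trans (le_of_eq ?_) hK.le
    unfold cn
    congr 2
    refine filter_congr fun k _ => ?_
    refine exists_congr fun i => ?_
    rw [Submodule.span_le, Set.insert_subset_iff, Set.singleton_subset_iff]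
    rfl
  have hne : (atTop ⊓ ⨅ x, 𝓟 (κ ⁻¹' (Q x)) : Filter ℕ).NeBot := by
    refine neBot_of_le (f := (hyperfilter ℕ : Filter ℕ)) (le_inf Nat.hyperfilter_le_atTop ?_)
    refine le_iInf fun x => ?_
    rw [le_principal_iff]
    have := hQm x
    rw [h𝒰, Ultrafilter.coe_map, Filter.mem_map] at this
    exact this
  obtain ⟨φ, hφ⟩ := exists_seq_tendsto (atTop ⊓ ⨅ x, 𝓟 (κ ⁻¹' (Q x)) : Filter ℕ)
  have hφ1 : Tendsto φ atTop atTop := hφ.mono_right inf_le_left
  obtain ⟨ψ, hψ1, hψ2⟩ := strictMono_subseq_of_tendsto_atTop hφ1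
  refine ⟨φ ∘ ψ, hψ2, ?_⟩
  intro x
  have h1 : Tendsto φ atTop (𝓟 (κ ⁻¹' (Q x))) :=
    hφ.mono_right (inf_le_right.trans (iInf_le _ x))
  have h2 := h1.comp hψ1.tendsto_atTop
  exact tendsto_principal.1 h2

end Pool.Agent.H72.ET
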