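import Pool.Agent.H72.BF.Targets5
import Pool.Agent.H72.BF.Targets6
import Pool.Agent.H67.BF.GCR

open Finset Filter

namespace Pool.Agent.H72.ET

open Pool.Agent.H72.BF (RelN RelD)

/-! Targets of the board et_modules (MP_3cf473_nt): the exceptional logarithms relative to a tuple
of arbitrary complex numbers lie in few subspaces, any number of variables. -/

noncomputable section

/-- evaluation of polynomials at `t` -/
abbrev evt {K F : Type} [Field K] [Field F] [Algebra K F] {r : ℕ} (t : Fin r → F) :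
    MvPolynomial (Fin r) K →+* F := (MvPolynomial.aeval t : MvPolynomial (Fin r) K →ₐ[K] F).toRingHom

/-- the total degree of a polynomial in one variable with polynomial coefficients is at most `d` -/
def TDr {K : Type} [Field K] {r : ℕ} (R : Polynomial (MvPolynomial (Fin r) K)) (d : ℕ) : Prop :=
  ∀ (n : ℕ) (m : Fin r →₀ ℕ), d < n + m.degree → (R.coeff n).coeff m = 0

/-- relations as polynomials in the last variable -/
def T_RNI : Prop := ∀ (K F : Type) [Field K] [Field F] [Algebra K F] (r : ℕ) (t : Fin r → F)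
  (d : ℕ) (z : F), RelN K t d z ↔ ∃ R : Polynomial (MvPolynomial (Fin r) K), R ≠ 0 ∧ TDr R d ∧
    R.eval₂ (evt t) z = 0

/-- the norm form -/
def T_NRN : Prop := ∀ r D m : ℕ, ∃ B : ℕ, ∀ (K F : Type) [Field K] [CharZero K] [IsAlgClosed K]
  [Field F] [Algebra K F] (t : Fin r → F), AlgebraicIndependent K t → ∀ w : Fin m → F,
  (∀ j, RelN K t D (w j)) →
  ∃ (Ω : Type) (_ : Field Ω) (_ : Algebra F Ω) (e : ℕ) (ω : Fin e → Fin m → Ω)
    (g : MvPolynomial (Fin r) K)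
    (G : Polynomial (MvPolynomial (Fin m) (MvPolynomial (Fin r) K))),
    e ≤ B ∧ g.totalDegree ≤ B ∧ g ≠ 0 ∧
    (∃ i0, ∀ j, ω i0 j = algebraMap F Ω (w j)) ∧
    (∀ i i', i ≠ i' → ω i ≠ ω i') ∧
    G.map (MvPolynomial.map ((algebraMap F Ω).comp (evt t))) =
      Polynomial.C (MvPolynomial.C (algebraMap F Ω (evt t g))) *
        ∏ i, (Polynomial.X - Polynomial.C (∑ j, MvPolynomial.C (ω i j) * MvPolynomial.X j)) ∧
    (∀ π : MvPolynomial (Fin r) K, Prime π →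
      G.map (MvPolynomial.map (Ideal.Quotient.mk (Ideal.span {π}))) ≠ 0) ∧
    (∀ (v : Fin m → K) (Q : Polynomial (MvPolynomial (Fin r) K)),
      Q.eval₂ (evt t) (∑ j, algebraMap K F (v j) * w j) = 0 →
      ∀ i, Q.eval₂ ((algebraMap F Ω).comp (evt t))
        (∑ j, algebraMap F Ω (algebraMap K F (v j)) * ω i j) = 0)

/-- one step: everything or few proper subspaces -/
def T_STN : Prop := ∀ r d m : ℕ, ∃ b : ℕ, ∀ (K F : Type) [Field K] [CharZero K] [IsAlgClosed K]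
  [Field F] [Algebra K F] (t : Fin r → F), AlgebraicIndependent K t → ∀ w : Fin m → F,
  (∀ j, RelN K t d (w j)) →
  (∀ v : Fin m → K, RelN K t d (∑ j, algebraMap K F (v j) * w j)) ∨
  ∃ Hs : Finset (Submodule K (Fin m → K)), Hs.card ≤ b ∧ (∀ U ∈ Hs, U ≠ ⊤) ∧
    ∀ v : Fin m → K, RelN K t d (∑ j, algebraMap K F (v j) * w j) → ∃ U ∈ Hs, v ∈ U

/-- the elements with a relation of degree at most `d` in a linear space form few subspaces -/
def T_CVN : Prop := ∀ r d M : ℕ, ∃ s : ℕ, ∀ (K F : Type) [Field K] [CharZero K] [IsAlgClosed K]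
  [Field F] [Algebra K F] (t : Fin r → F), AlgebraicIndependent K t → ∀ y : Fin M → F,
  ∃ Ws : Finset (Submodule K (Fin M → K)), Ws.card ≤ s ∧
    (∀ W ∈ Ws, ∀ v ∈ W, RelN K t d (∑ j, algebraMap K F (v j) * y j)) ∧
    ∀ v : Fin M → K, RelN K t d (∑ j, algebraMap K F (v j) * y j) → ∃ W ∈ Ws, v ∈ W

/-- algebraic form for algebraically independent elements -/
def T_EXN : Prop := ∀ r d M : ℕ, ∃ s : ℕ, ∀ (K F : Type) [Field K] [CharZero K] [IsAlgClosed K]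
  [Field F] [Algebra K F] (t : Fin r → F) (y : Fin M → F), AlgebraicIndependent K t →
  LinearIndependent K (Fin.cons 1 y : Fin (M + 1) → F) →
  ∃ W : Fin s → Submodule K (Fin M → K),
    (∀ i, Module.finrank K (W i) + 1 ≤ (r + d).choose d) ∧
    ∀ v : Fin M → K, RelN K t d (∑ j, algebraMap K F (v j) * y j) → ∃ i, v ∈ W i

/-- ultraproducts of algebraically closed fields are algebraically closed -/
def T_UAC : Prop := ∀ (K : ℕ → Type) [∀ j, Field (K j)] [∀ j, IsAlgClosed (K j)],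
  IsAlgClosed (Pool.Agent.H67.BF.GCR.UR K)

/-- the value at `g` of an integer polynomial of degree and height at most `D` -/
def Sm {K : Type} [Field K] {L : ℕ} (g : Fin L → K) (D : ℕ) (c : K) : Prop :=
  ∃ f : MvPolynomial (Fin L) ℤ, f.totalDegree ≤ D ∧ (∀ m : Fin L →₀ ℕ, |f.coeff m| ≤ (D : ℤ)) ∧
    MvPolynomial.aeval g f = c

/-- uniform form for elements without relations of small degree and small coefficients
(compactness) -/
def T_EXU : Prop := ∀ r d M : ℕ, ∃ s : ℕ, ∀ N L : ℕ, ∃ D : ℕ, ∀ (K F : Type) [Field K]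
  [CharZero K] [IsAlgClosed K] [Field F] [Algebra K F] (t : Fin r → F) (y : Fin M → F)
  (g : Fin L → K) (v : Fin N → Fin M → K) (P : Fin N → MvPolynomial (Fin (r + 1)) K),
  LinearIndependent K (Fin.cons 1 y : Fin (M + 1) → F) →
  (∀ l j, ∃ i, v l j = g i) → (∀ l m, (P l).coeff m = 0 ∨ ∃ i, (P l).coeff m = g i) →
  (∀ l, P l ≠ 0) → (∀ l, (P l).totalDegree ≤ d) →
  (∀ l, MvPolynomial.aeval (Fin.snoc t (∑ j, algebraMap K F (v l j) * y j) :
    Fin (r + 1) → F) (P l) = 0) →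
  (∀ Q : MvPolynomial (Fin r) K, Q ≠ 0 → Q.totalDegree ≤ D → (∀ m, Sm g D (Q.coeff m)) →
    MvPolynomial.aeval t Q ≠ 0) →
  ∃ W : Fin s → Submodule K (Fin M → K),
    (∀ i, Module.finrank K (W i) + 1 ≤ (r + d).choose d) ∧ ∀ l, ∃ i, v l ∈ W i

/-- the inequality at the point `x` -/
def GoodN {n : ℕ} (d : ℕ) (H C : ℝ) (x : Fin n → ℂ) : Prop :=
  ∀ P : MvPolynomial (Fin n) ℤ, P ≠ 0 → P.totalDegree ≤ d →
    (∀ e : Fin n →₀ ℕ, |((P.coeff e : ℤ) : ℝ)| ≤ H) → 1 ≤ H ^ C * ‖MvPolynomial.aeval x P‖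

/-- THEOREM at one height: any number of variables -/
def T_ETQ : Prop := ∀ r d M : ℕ, ∃ s D : ℕ, ∀ μ : Fin M → ℂ, LinearIndependent ℚ μ →
  (∀ j, IsAlgebraic ℚ (Complex.exp (μ j))) → ∀ A : ℝ, ∃ C : ℝ, 0 < C ∧ ∀ H : ℝ, 2 ≤ H →
  ∀ ξ : Fin r → ℂ, (∀ i, ‖ξ i‖ ≤ H) → GoodN D (H ^ (D : ℝ)) A ξ →
  ∃ U : Fin s → Submodule ℚ (Fin M → ℚ),
    (∀ i, Module.finrank ℚ (U i) + 1 ≤ (r + d).choose d) ∧
    ∀ w : Fin M → ℤ, (∀ i, |(w i : ℝ)| ≤ H) → (∀ i, (fun j => (w j : ℚ)) ∉ U i) →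
      GoodN d H C (Fin.snoc ξ (∑ j, (w j : ℂ) * μ j) : Fin (r + 1) → ℂ)

/-- THEOREM at one height: one arbitrary complex number, better bound for the dimension -/
def T_ET1 : Prop := ∀ d M : ℕ, ∃ s : ℕ, ∀ μ : Fin M → ℂ, LinearIndependent ℚ μ →
  (∀ j, IsAlgebraic ℚ (Complex.exp (μ j))) → ∀ A : ℝ, ∃ C : ℝ, 0 < C ∧ ∀ H : ℝ, 2 ≤ H →
  ∀ ξ : Fin 1 → ℂ, (∀ i, ‖ξ i‖ ≤ H) → GoodN d H A ξ →
  ∃ U : Fin s → Submodule ℚ (Fin M → ℚ),
    (∀ i, Module.finrank ℚ (U i) ≤ d ∧ Module.finrank ℚ (U i) + 1 ≤ Nat.sqrt (4 * d + 1)) ∧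
    ∀ w : Fin M → ℤ, (∀ i, |(w i : ℝ)| ≤ H) → (∀ i, (fun j => (w j : ℚ)) ∉ U i) →
      GoodN d H C (Fin.snoc ξ (∑ j, (w j : ℂ) * μ j) : Fin (1 + 1) → ℂ)

end

end Pool.Agent.H72.ET
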